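import Mathlib
set_option autoImplicit false
namespace Pool.Agent.Results.MP_d69fce_al.Yes

/-- `φ` is a half-derivation for the bracket `b`. -/
def HalfDer {M : Type} [AddCommGroup M] [Module ℂ M] (b : M → M → M) (φ : M →ₗ[ℂ] M) : Prop :=
  ∀ x y, φ (b x y) = (1 / 2 : ℂ) • (b (φ x) y + b x (φ y))

/-- `m` is a transposed Poisson structure for the bracket `b`. -/
def TP {M : Type} [AddCommGroup M] [Module ℂ M] (b : M → M → M) (m : M →ₗ[ℂ] M →ₗ[ℂ] M) : Prop :=
  (∀ x y, m x y = m y x) ∧ (∀ x y z, m (m x y) z = m x (m y z)) ∧
    ∀ x y z, (2 : ℂ) • m z (b x y) = b (m z x) y + b x (m z y)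

/-- bracket of the central extension `L ⊕ ℂ c` by `ω`. -/
def extBr {L : Type} [LieRing L] [LieAlgebra ℂ L] (ω : L →ₗ[ℂ] L →ₗ[ℂ] ℂ) (p q : L × ℂ) : L × ℂ :=
  (⁅p.1, q.1⁆, ω p.1 q.1)

/-- some transposed Poisson structure for `b` is nonzero -/
def HasTP {M : Type} [AddCommGroup M] [Module ℂ M] (b : M → M → M) : Prop :=
  ∃ m, TP b m ∧ m ≠ 0

/-- some half-derivation for `b` is not scalar -/
def HasHD {M : Type} [AddCommGroup M] [Module ℂ M] (b : M → M → M) : Prop :=
  ∃ φ, HalfDer b φ ∧ ¬ ∃ c : ℂ, φ = c • LinearMap.id

/-- `ω` is an alternating 2-cocycle which is not a coboundary -/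
def NonSplit {L : Type} [LieRing L] [LieAlgebra ℂ L] (ω : L →ₗ[ℂ] L →ₗ[ℂ] ℂ) : Prop :=
  (∀ x, ω x x = 0) ∧ (∀ x y z, ω ⁅x, y⁆ z + ω ⁅y, z⁆ x + ω ⁅z, x⁆ y = 0) ∧
    ¬ ∃ f : L →ₗ[ℂ] ℂ, ∀ x y, ω x y = f ⁅x, y⁆

def br (x y : Fin 8 → ℂ) : Fin 8 → ℂ :=
  ![2 * (x 2 * y 0 - x 0 * y 2), -2 * (x 2 * y 1 - x 1 * y 2), x 0 * y 1 - x 1 * y 0, 0,
    (x 2 + x 3) * y 4 + x 0 * y 5 - ((y 2 + y 3) * x 4 + y 0 * x 5),
    (x 3 - x 2) * y 5 + x 1 * y 4 - ((y 3 - y 2) * x 5 + y 1 * x 4),
    (x 2 - x 3) * y 6 + x 0 * y 7 - ((y 2 - y 3) * x 6 + y 0 * x 7),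
    (-x 3 - x 2) * y 7 + x 1 * y 6 - ((-y 3 - y 2) * x 7 + y 1 * x 6)]

theorem key (p : Fin 8 → Fin 8 → ℂ)
    (H : ∀ (x y : Fin 8 → ℂ) (m : Fin 8), 2 * ∑ i, br x y i * p i m =
      br (fun k => ∑ i, x i * p i k) y m + br x (fun k => ∑ i, y i * p i k) m) :
    ∀ i k, p i k = if i = k then p 3 3 else 0 := by
  have h := fun (i j m : Fin 8) => H (Pi.single i 1) (Pi.single j 1) m
  have h010 : (2) * p 1 2 + (2) * p 2 0 = 0 := by
    have := h 0 1 0
    simp only [br, Fin.sum_univ_eight, Matrix.cons_val, Pi.single_apply, Fin.reduceEq, if_true, if_false] at this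
    linear_combination this
  have h011 : (2) * p 0 2 + (2) * p 2 1 = 0 := by
    have := h 0 1 1
    simp only [br, Fin.sum_univ_eight, Matrix.cons_val, Pi.single_apply, Fin.reduceEq, if_true, if_false] at this
    linear_combination this
  have h013 : (2) * p 2 3 = 0 := by
    have := h 0 1 3
    simp only [br, Fin.sum_univ_eight, Matrix.cons_val, Pi.single_apply, Fin.reduceEq, if_true, if_false] at this
    linear_combination this
  have h014 : (-1) * p 1 5 + (2) * p 2 4 = 0 := by
    have := h 0 1 4
    simp only [br, Fin.sum_univ_eight, Matrix.cons_val, Pi.single_apply, Fin.reduceEq, if_true, if_false] at this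
    linear_combination this
  have h015 : (1) * p 0 4 + (2) * p 2 5 = 0 := by
    have := h 0 1 5
    simp only [br, Fin.sum_univ_eight, Matrix.cons_val, Pi.single_apply, Fin.reduceEq, if_true, if_false] at this
    linear_combination this
  have h016 : (-1) * p 1 7 + (2) * p 2 6 = 0 := by
    have := h 0 1 6
    simp only [br, Fin.sum_univ_eight, Matrix.cons_val, Pi.single_apply, Fin.reduceEq, if_true, if_false] at this
    linear_combination this
  have h017 : (1) * p 0 6 + (2) * p 2 7 = 0 := by
    have := h 0 1 7
    simp only [br, Fin.sum_univ_eight, Matrix.cons_val, Pi.single_apply, Fin.reduceEq, if_true, if_false] at this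
    linear_combination this
  have h020 : (-2) * p 0 0 + (2) * p 2 2 = 0 := by
    have := h 0 2 0
    simp only [br, Fin.sum_univ_eight, Matrix.cons_val, Pi.single_apply, Fin.reduceEq, if_true, if_false] at this
    linear_combination this
  have h021 : (-6) * p 0 1 = 0 := by
    have := h 0 2 1
    simp only [br, Fin.sum_univ_eight, Matrix.cons_val, Pi.single_apply, Fin.reduceEq, if_true, if_false] at this
    linear_combination this
  have h022 : (-4) * p 0 2 + (-1) * p 2 1 = 0 := by
    have := h 0 2 2
    simp only [br, Fin.sum_univ_eight, Matrix.cons_val, Pi.single_apply, Fin.reduceEq, if_true, if_false] at this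
    linear_combination this
  have h023 : (-4) * p 0 3 = 0 := by
    have := h 0 2 3
    simp only [br, Fin.sum_univ_eight, Matrix.cons_val, Pi.single_apply, Fin.reduceEq, if_true, if_false] at this
    linear_combination this
  have h024 : (-3) * p 0 4 + (-1) * p 2 5 = 0 := by
    have := h 0 2 4
    simp only [br, Fin.sum_univ_eight, Matrix.cons_val, Pi.single_apply, Fin.reduceEq, if_true, if_false] at this
    linear_combination this
  have h026 : (-3) * p 0 6 + (-1) * p 2 7 = 0 := by
    have := h 0 2 6
    simp only [br, Fin.sum_univ_eight, Matrix.cons_val, Pi.single_apply, Fin.reduceEq, if_true, if_false] at this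
    linear_combination this
  have h034 : (1) * p 0 4 + (-1) * p 3 5 = 0 := by
    have := h 0 3 4
    simp only [br, Fin.sum_univ_eight, Matrix.cons_val, Pi.single_apply, Fin.reduceEq, if_true, if_false] at this
    linear_combination this
  have h035 : (1) * p 0 5 = 0 := by
    have := h 0 3 5
    simp only [br, Fin.sum_univ_eight, Matrix.cons_val, Pi.single_apply, Fin.reduceEq, if_true, if_false] at this
    linear_combination this
  have h036 : (-1) * p 0 6 + (-1) * p 3 7 = 0 := by
    have := h 0 3 6
    simp only [br, Fin.sum_univ_eight, Matrix.cons_val, Pi.single_apply, Fin.reduceEq, if_true, if_false] at this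
    linear_combination this
  have h037 : (-1) * p 0 7 = 0 := by
    have := h 0 3 7
    simp only [br, Fin.sum_univ_eight, Matrix.cons_val, Pi.single_apply, Fin.reduceEq, if_true, if_false] at this
    linear_combination this
  have h046 : (-1) * p 4 7 = 0 := by
    have := h 0 4 6
    simp only [br, Fin.sum_univ_eight, Matrix.cons_val, Pi.single_apply, Fin.reduceEq, if_true, if_false] at this
    linear_combination this
  have h120 : (6) * p 1 0 = 0 := by
    have := h 1 2 0
    simp only [br, Fin.sum_univ_eight, Matrix.cons_val, Pi.single_apply, Fin.reduceEq, if_true, if_false] at this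
    linear_combination this
  have h121 : (2) * p 1 1 + (-2) * p 2 2 = 0 := by
    have := h 1 2 1
    simp only [br, Fin.sum_univ_eight, Matrix.cons_val, Pi.single_apply, Fin.reduceEq, if_true, if_false] at this
    linear_combination this
  have h122 : (4) * p 1 2 + (1) * p 2 0 = 0 := by
    have := h 1 2 2
    simp only [br, Fin.sum_univ_eight, Matrix.cons_val, Pi.single_apply, Fin.reduceEq, if_true, if_false] at this
    linear_combination this
  have h123 : (4) * p 1 3 = 0 := by
    have := h 1 2 3
    simp only [br, Fin.sum_univ_eight, Matrix.cons_val, Pi.single_apply, Fin.reduceEq, if_true, if_false] at this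
    linear_combination this
  have h124 : (5) * p 1 4 = 0 := by
    have := h 1 2 4
    simp only [br, Fin.sum_univ_eight, Matrix.cons_val, Pi.single_apply, Fin.reduceEq, if_true, if_false] at this
    linear_combination this
  have h125 : (3) * p 1 5 + (-1) * p 2 4 = 0 := by
    have := h 1 2 5
    simp only [br, Fin.sum_univ_eight, Matrix.cons_val, Pi.single_apply, Fin.reduceEq, if_true, if_false] at this
    linear_combination this
  have h126 : (5) * p 1 6 = 0 := by
    have := h 1 2 6
    simp only [br, Fin.sum_univ_eight, Matrix.cons_val, Pi.single_apply, Fin.reduceEq, if_true, if_false] at this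
    linear_combination this
  have h127 : (3) * p 1 7 + (-1) * p 2 6 = 0 := by
    have := h 1 2 7
    simp only [br, Fin.sum_univ_eight, Matrix.cons_val, Pi.single_apply, Fin.reduceEq, if_true, if_false] at this
    linear_combination this
  have h131 : (-2) * p 3 2 = 0 := by
    have := h 1 3 1
    simp only [br, Fin.sum_univ_eight, Matrix.cons_val, Pi.single_apply, Fin.reduceEq, if_true, if_false] at this
    linear_combination this
  have h132 : (1) * p 3 0 = 0 := by
    have := h 1 3 2
    simp only [br, Fin.sum_univ_eight, Matrix.cons_val, Pi.single_apply, Fin.reduceEq, if_true, if_false] at this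
    linear_combination this
  have h135 : (1) * p 1 5 + (-1) * p 3 4 = 0 := by
    have := h 1 3 5
    simp only [br, Fin.sum_univ_eight, Matrix.cons_val, Pi.single_apply, Fin.reduceEq, if_true, if_false] at this
    linear_combination this
  have h137 : (-1) * p 1 7 + (-1) * p 3 6 = 0 := by
    have := h 1 3 7
    simp only [br, Fin.sum_univ_eight, Matrix.cons_val, Pi.single_apply, Fin.reduceEq, if_true, if_false] at this
    linear_combination this
  have h143 : (2) * p 5 3 = 0 := by
    have := h 1 4 3
    simp only [br, Fin.sum_univ_eight, Matrix.cons_val, Pi.single_apply, Fin.reduceEq, if_true, if_false] at this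
    linear_combination this
  have h146 : (2) * p 5 6 = 0 := by
    have := h 1 4 6
    simp only [br, Fin.sum_univ_eight, Matrix.cons_val, Pi.single_apply, Fin.reduceEq, if_true, if_false] at this
    linear_combination this
  have h151 : (-2) * p 5 2 = 0 := by
    have := h 1 5 1
    simp only [br, Fin.sum_univ_eight, Matrix.cons_val, Pi.single_apply, Fin.reduceEq, if_true, if_false] at this
    linear_combination this
  have h160 : (2) * p 7 0 = 0 := by
    have := h 1 6 0
    simp only [br, Fin.sum_univ_eight, Matrix.cons_val, Pi.single_apply, Fin.reduceEq, if_true, if_false] at this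
    linear_combination this
  have h163 : (2) * p 7 3 = 0 := by
    have := h 1 6 3
    simp only [br, Fin.sum_univ_eight, Matrix.cons_val, Pi.single_apply, Fin.reduceEq, if_true, if_false] at this
    linear_combination this
  have h171 : (-2) * p 7 2 = 0 := by
    have := h 1 7 1
    simp only [br, Fin.sum_univ_eight, Matrix.cons_val, Pi.single_apply, Fin.reduceEq, if_true, if_false] at this
    linear_combination this
  have h231 : (2) * p 3 1 = 0 := by
    have := h 2 3 1
    simp only [br, Fin.sum_univ_eight, Matrix.cons_val, Pi.single_apply, Fin.reduceEq, if_true, if_false] at this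
    linear_combination this
  have h241 : (4) * p 4 1 = 0 := by
    have := h 2 4 1
    simp only [br, Fin.sum_univ_eight, Matrix.cons_val, Pi.single_apply, Fin.reduceEq, if_true, if_false] at this
    linear_combination this
  have h242 : (2) * p 4 2 = 0 := by
    have := h 2 4 2
    simp only [br, Fin.sum_univ_eight, Matrix.cons_val, Pi.single_apply, Fin.reduceEq, if_true, if_false] at this
    linear_combination this
  have h243 : (2) * p 4 3 = 0 := by
    have := h 2 4 3
    simp only [br, Fin.sum_univ_eight, Matrix.cons_val, Pi.single_apply, Fin.reduceEq, if_true, if_false] at this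
    linear_combination this
  have h244 : (-1) * p 2 2 + (-1) * p 2 3 + (1) * p 4 4 = 0 := by
    have := h 2 4 4
    simp only [br, Fin.sum_univ_eight, Matrix.cons_val, Pi.single_apply, Fin.reduceEq, if_true, if_false] at this
    linear_combination this
  have h246 : (1) * p 4 6 = 0 := by
    have := h 2 4 6
    simp only [br, Fin.sum_univ_eight, Matrix.cons_val, Pi.single_apply, Fin.reduceEq, if_true, if_false] at this
    linear_combination this
  have h250 : (-4) * p 5 0 = 0 := by
    have := h 2 5 0
    simp only [br, Fin.sum_univ_eight, Matrix.cons_val, Pi.single_apply, Fin.reduceEq, if_true, if_false] at this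
    linear_combination this
  have h257 : (-1) * p 5 7 = 0 := by
    have := h 2 5 7
    simp only [br, Fin.sum_univ_eight, Matrix.cons_val, Pi.single_apply, Fin.reduceEq, if_true, if_false] at this
    linear_combination this
  have h261 : (4) * p 6 1 = 0 := by
    have := h 2 6 1
    simp only [br, Fin.sum_univ_eight, Matrix.cons_val, Pi.single_apply, Fin.reduceEq, if_true, if_false] at this
    linear_combination this
  have h262 : (2) * p 6 2 = 0 := by
    have := h 2 6 2
    simp only [br, Fin.sum_univ_eight, Matrix.cons_val, Pi.single_apply, Fin.reduceEq, if_true, if_false] at this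
    linear_combination this
  have h263 : (2) * p 6 3 = 0 := by
    have := h 2 6 3
    simp only [br, Fin.sum_univ_eight, Matrix.cons_val, Pi.single_apply, Fin.reduceEq, if_true, if_false] at this
    linear_combination this
  have h264 : (1) * p 6 4 = 0 := by
    have := h 2 6 4
    simp only [br, Fin.sum_univ_eight, Matrix.cons_val, Pi.single_apply, Fin.reduceEq, if_true, if_false] at this
    linear_combination this
  have h265 : (3) * p 6 5 = 0 := by
    have := h 2 6 5
    simp only [br, Fin.sum_univ_eight, Matrix.cons_val, Pi.single_apply, Fin.reduceEq, if_true, if_false] at this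
    linear_combination this
  have h274 : (-3) * p 7 4 = 0 := by
    have := h 2 7 4
    simp only [br, Fin.sum_univ_eight, Matrix.cons_val, Pi.single_apply, Fin.reduceEq, if_true, if_false] at this
    linear_combination this
  have h275 : (-1) * p 7 5 = 0 := by
    have := h 2 7 5
    simp only [br, Fin.sum_univ_eight, Matrix.cons_val, Pi.single_apply, Fin.reduceEq, if_true, if_false] at this
    linear_combination this
  have h277 : (1) * p 2 2 + (1) * p 2 3 + (-1) * p 7 7 = 0 := by
    have := h 2 7 7
    simp only [br, Fin.sum_univ_eight, Matrix.cons_val, Pi.single_apply, Fin.reduceEq, if_true, if_false] at this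
    linear_combination this
  have h340 : (2) * p 4 0 = 0 := by
    have := h 3 4 0
    simp only [br, Fin.sum_univ_eight, Matrix.cons_val, Pi.single_apply, Fin.reduceEq, if_true, if_false] at this
    linear_combination this
  have h345 : (-1) * p 3 1 + (1) * p 4 5 = 0 := by
    have := h 3 4 5
    simp only [br, Fin.sum_univ_eight, Matrix.cons_val, Pi.single_apply, Fin.reduceEq, if_true, if_false] at this
    linear_combination this
  have h351 : (2) * p 5 1 = 0 := by
    have := h 3 5 1
    simp only [br, Fin.sum_univ_eight, Matrix.cons_val, Pi.single_apply, Fin.reduceEq, if_true, if_false] at this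
    linear_combination this
  have h354 : (-1) * p 3 0 + (1) * p 5 4 = 0 := by
    have := h 3 5 4
    simp only [br, Fin.sum_univ_eight, Matrix.cons_val, Pi.single_apply, Fin.reduceEq, if_true, if_false] at this
    linear_combination this
  have h355 : (1) * p 3 2 + (-1) * p 3 3 + (1) * p 5 5 = 0 := by
    have := h 3 5 5
    simp only [br, Fin.sum_univ_eight, Matrix.cons_val, Pi.single_apply, Fin.reduceEq, if_true, if_false] at this
    linear_combination this
  have h360 : (-2) * p 6 0 = 0 := by
    have := h 3 6 0
    simp only [br, Fin.sum_univ_eight, Matrix.cons_val, Pi.single_apply, Fin.reduceEq, if_true, if_false] at this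
    linear_combination this
  have h366 : (-1) * p 3 2 + (1) * p 3 3 + (-1) * p 6 6 = 0 := by
    have := h 3 6 6
    simp only [br, Fin.sum_univ_eight, Matrix.cons_val, Pi.single_apply, Fin.reduceEq, if_true, if_false] at this
    linear_combination this
  have h367 : (-1) * p 3 1 + (-1) * p 6 7 = 0 := by
    have := h 3 6 7
    simp only [br, Fin.sum_univ_eight, Matrix.cons_val, Pi.single_apply, Fin.reduceEq, if_true, if_false] at this
    linear_combination this
  have h371 : (-2) * p 7 1 = 0 := by
    have := h 3 7 1
    simp only [br, Fin.sum_univ_eight, Matrix.cons_val, Pi.single_apply, Fin.reduceEq, if_true, if_false] at this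
    linear_combination this
  have h376 : (-1) * p 3 0 + (-1) * p 7 6 = 0 := by
    have := h 3 7 6
    simp only [br, Fin.sum_univ_eight, Matrix.cons_val, Pi.single_apply, Fin.reduceEq, if_true, if_false] at this
    linear_combination this
  have h377 : (1) * p 3 2 + (1) * p 3 3 + (-1) * p 7 7 = 0 := by
    have := h 3 7 7
    simp only [br, Fin.sum_univ_eight, Matrix.cons_val, Pi.single_apply, Fin.reduceEq, if_true, if_false] at this
    linear_combination this
  have q00 : p 0 0 = p 3 3 := by linear_combination (-1/2) * h013 + (-1/2) * h020 + (-1/2) * h131 + (1) * h277 + (-1) * h377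
  have q01 : p 0 1 = 0 := by linear_combination (-1/6) * h021
  have q02 : p 0 2 = 0 := by linear_combination (-1/6) * h011 + (-1/3) * h022
  have q03 : p 0 3 = 0 := by linear_combination (-1/4) * h023
  have q04 : p 0 4 = 0 := by linear_combination (-1/5) * h015 + (-2/5) * h024
  have q05 : p 0 5 = 0 := by linear_combination (1) * h035
  have q06 : p 0 6 = 0 := by linear_combination (-1/5) * h017 + (-2/5) * h026
  have q07 : p 0 7 = 0 := by linear_combination (-1) * h037
  have q10 : p 1 0 = 0 := by linear_combination (1/6) * h120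
  have q11 : p 1 1 = p 3 3 := by linear_combination (-1/2) * h013 + (1/2) * h121 + (-1/2) * h131 + (1) * h277 + (-1) * h377
  have q12 : p 1 2 = 0 := by linear_combination (-1/6) * h010 + (1/3) * h122
  have q13 : p 1 3 = 0 := by linear_combination (1/4) * h123
  have q14 : p 1 4 = 0 := by linear_combination (1/5) * h124
  have q15 : p 1 5 = 0 := by linear_combination (1/5) * h014 + (2/5) * h125
  have q16 : p 1 6 = 0 := by linear_combination (1/5) * h126
  have q17 : p 1 7 = 0 := by linear_combination (1/5) * h016 + (2/5) * h127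
  have q20 : p 2 0 = 0 := by linear_combination (2/3) * h010 + (-1/3) * h122
  have q21 : p 2 1 = 0 := by linear_combination (2/3) * h011 + (1/3) * h022
  have q22 : p 2 2 = p 3 3 := by linear_combination (-1/2) * h013 + (-1/2) * h131 + (1) * h277 + (-1) * h377
  have q23 : p 2 3 = 0 := by linear_combination (1/2) * h013
  have q24 : p 2 4 = 0 := by linear_combination (3/5) * h014 + (1/5) * h125
  have q25 : p 2 5 = 0 := by linear_combination (3/5) * h015 + (1/5) * h024
  have q26 : p 2 6 = 0 := by linear_combination (3/5) * h016 + (1/5) * h127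
  have q27 : p 2 7 = 0 := by linear_combination (3/5) * h017 + (1/5) * h026
  have q30 : p 3 0 = 0 := by linear_combination (1) * h132
  have q31 : p 3 1 = 0 := by linear_combination (1/2) * h231
  have q32 : p 3 2 = 0 := by linear_combination (-1/2) * h131
  have q34 : p 3 4 = 0 := by linear_combination (1/5) * h014 + (2/5) * h125 + (-1) * h135
  have q35 : p 3 5 = 0 := by linear_combination (-1/5) * h015 + (-2/5) * h024 + (-1) * h034
  have q36 : p 3 6 = 0 := by linear_combination (-1/5) * h016 + (-2/5) * h127 + (-1) * h137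
  have q37 : p 3 7 = 0 := by linear_combination (1/5) * h017 + (2/5) * h026 + (-1) * h036
  have q40 : p 4 0 = 0 := by linear_combination (1/2) * h340
  have q41 : p 4 1 = 0 := by linear_combination (1/4) * h241
  have q42 : p 4 2 = 0 := by linear_combination (1/2) * h242
  have q43 : p 4 3 = 0 := by linear_combination (1/2) * h243
  have q44 : p 4 4 = p 3 3 := by linear_combination (-1/2) * h131 + (1) * h244 + (1) * h277 + (-1) * h377
  have q45 : p 4 5 = 0 := by linear_combination (1/2) * h231 + (1) * h345
  have q46 : p 4 6 = 0 := by linear_combination (1) * h246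
  have q47 : p 4 7 = 0 := by linear_combination (-1) * h046
  have q50 : p 5 0 = 0 := by linear_combination (-1/4) * h250
  have q51 : p 5 1 = 0 := by linear_combination (1/2) * h351
  have q52 : p 5 2 = 0 := by linear_combination (-1/2) * h151
  have q53 : p 5 3 = 0 := by linear_combination (1/2) * h143
  have q54 : p 5 4 = 0 := by linear_combination (1) * h132 + (1) * h354
  have q55 : p 5 5 = p 3 3 := by linear_combination (1/2) * h131 + (1) * h355
  have q56 : p 5 6 = 0 := by linear_combination (1/2) * h146
  have q57 : p 5 7 = 0 := by linear_combination (-1) * h257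
  have q60 : p 6 0 = 0 := by linear_combination (-1/2) * h360
  have q61 : p 6 1 = 0 := by linear_combination (1/4) * h261
  have q62 : p 6 2 = 0 := by linear_combination (1/2) * h262
  have q63 : p 6 3 = 0 := by linear_combination (1/2) * h263
  have q64 : p 6 4 = 0 := by linear_combination (1) * h264
  have q65 : p 6 5 = 0 := by linear_combination (1/3) * h265
  have q66 : p 6 6 = p 3 3 := by linear_combination (1/2) * h131 + (-1) * h366
  have q67 : p 6 7 = 0 := by linear_combination (-1/2) * h231 + (-1) * h367
  have q70 : p 7 0 = 0 := by linear_combination (1/2) * h160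
  have q71 : p 7 1 = 0 := by linear_combination (-1/2) * h371
  have q72 : p 7 2 = 0 := by linear_combination (-1/2) * h171
  have q73 : p 7 3 = 0 := by linear_combination (1/2) * h163
  have q74 : p 7 4 = 0 := by linear_combination (-1/3) * h274
  have q75 : p 7 5 = 0 := by linear_combination (-1) * h275
  have q76 : p 7 6 = 0 := by linear_combination (-1) * h132 + (-1) * h376
  have q77 : p 7 7 = p 3 3 := by linear_combination (-1/2) * h131 + (-1) * h377
  intro i k
  fin_cases i <;> fin_cases k <;> simp only [Fin.reduceFinMk, Fin.reduceEq, if_true, if_false] <;>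
    assumption

def L : Type := Fin 8 → ℂ
noncomputable instance : AddCommGroup L := inferInstanceAs (AddCommGroup (Fin 8 → ℂ))
noncomputable instance : Module ℂ L := inferInstanceAs (Module ℂ (Fin 8 → ℂ))
instance : FiniteDimensional ℂ L := inferInstanceAs (FiniteDimensional ℂ (Fin 8 → ℂ))

theorem br_add (x y z : Fin 8 → ℂ) : br (x + y) z = br x z + br y z := by
  funext m; fin_cases m <;> simp [br] <;> ring
theorem add_br (x y z : Fin 8 → ℂ) : br x (y + z) = br x y + br x z := by
  funext m; fin_cases m <;> simp [br] <;> ring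
theorem br_self (x : Fin 8 → ℂ) : br x x = 0 := by
  funext m; fin_cases m <;> simp [br] <;> ring
theorem br_leib (x y z : Fin 8 → ℂ) : br x (br y z) = br (br x y) z + br y (br x z) := by
  funext m; fin_cases m <;> simp [br] <;> ring
theorem br_smul (t : ℂ) (x y : Fin 8 → ℂ) : br x (t • y) = t • br x y := by
  funext m; fin_cases m <;> simp [br] <;> ring

noncomputable instance : LieRing L where
  bracket := br
  add_lie := br_add
  lie_add := add_br
  lie_self := br_self
  leibniz_lie := br_leib

noncomputable instance : LieAlgebra ℂ L where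
  lie_smul := br_smul

noncomputable def om0 : (Fin 8 → ℂ) →ₗ[ℂ] (Fin 8 → ℂ) →ₗ[ℂ] ℂ :=
  LinearMap.mk₂ ℂ (fun x y => x 4 * y 7 - x 7 * y 4 - x 5 * y 6 + x 6 * y 5)
    (by intros; simp; ring) (by intros; simp; ring) (by intros; simp; ring)
    (by intros; simp; ring)

theorem hd0 (φ : (Fin 8 → ℂ) →ₗ[ℂ] (Fin 8 → ℂ)) (h : HalfDer br φ) :
    ∃ c : ℂ, φ = c • LinearMap.id := by
  have e : ∀ x k, φ x k = ∑ i, x i * φ (Pi.single i 1) k := by
    intro x k
    conv_lhs => rw [pi_eq_sum_univ' x, map_sum]
    simp [Finset.sum_apply]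
  have k := key (fun i k => φ (Pi.single i 1) k) (by
    intro x y m
    have := congrFun (h x y) m
    rw [e] at this
    rw [this, ← funext (e x), ← funext (e y)]
    simp)
  refine ⟨φ (Pi.single 3 1) 3, ?_⟩
  refine LinearMap.ext fun x => funext fun m => ?_
  rw [e, Finset.sum_congr rfl (fun i _ => congrArg (x i * ·) (k i m))]
  simp [mul_comm]

noncomputable def mu : (L × ℂ) →ₗ[ℂ] (L × ℂ) →ₗ[ℂ] (L × ℂ) :=
  LinearMap.mk₂ ℂ (fun x y => ((0 : L), (x.1 : Fin 8 → ℂ) 3 * (y.1 : Fin 8 → ℂ) 3))
    (by intro a b c; ext; · simp
        · exact add_mul _ _ _)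
    (by intro a b c; ext; · simp
        · exact mul_assoc _ _ _)
    (by intro a b c; ext; · simp
        · exact mul_add _ _ _)
    (by intro a b c; ext; · simp
        · exact mul_left_comm _ _ _)

theorem mu_ap (x y : L × ℂ) :
    mu x y = ((0 : L), (x.1 : Fin 8 → ℂ) 3 * (y.1 : Fin 8 → ℂ) 3) := rfl

theorem mu_tp : TP (extBr (L := L) om0) mu := by
  refine ⟨fun x y => by rw [mu_ap, mu_ap, mul_comm], fun x y z => ?_, fun x y z => ?_⟩
  · rw [mu_ap, mu_ap, mu_ap, mu_ap]
    have : (0 : L) 3 = 0 := rfl
    simp [this]
  · have : (⁅x.1, y.1⁆ : L) 3 = 0 := rfl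
    simp [mu_ap, extBr, this]

theorem result : ∃ (L : Type) (_ : LieRing L) (_ : LieAlgebra ℂ L) (ω : L →ₗ[ℂ] L →ₗ[ℂ] ℂ),
    FiniteDimensional ℂ L ∧ NonSplit ω ∧
    ¬ HasTP (fun x y : L => ⁅x, y⁆) ∧ HasTP (extBr ω) ∧
    ¬ HasHD (fun x y : L => ⁅x, y⁆) ∧ HasHD (extBr ω) := by
  let t : L := (Pi.single 3 1 : Fin 8 → ℂ)
  have ht : t 3 = 1 := by simp [t]
  refine ⟨L, inferInstance, inferInstance, om0, inferInstance, ⟨?_, ?_, ?_⟩, ?_, ⟨mu, mu_tp, ?_⟩,
    fun ⟨φ, h1, h2⟩ => h2 (hd0 φ h1), ⟨mu (t, 0), ?_, ?_⟩⟩
  · intro x
    show x 4 * x 7 - x 7 * x 4 - x 5 * x 6 + x 6 * x 5 = 0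
    ring
  · intro x y z
    show om0 (br x y) z + om0 (br y z) x + om0 (br z x) y = 0
    simp [om0, br]; ring
  · rintro ⟨f, hf⟩
    have := hf (Pi.single 4 1 : Fin 8 → ℂ) (Pi.single 7 1 : Fin 8 → ℂ)
    have e : br (Pi.single 4 1) (Pi.single 7 1) = 0 := by
      funext m; fin_cases m <;> simp [br]
    change om0 _ _ = f (br _ _) at this
    rw [e] at this
    have z : f (0 : Fin 8 → ℂ) = 0 := map_zero f
    rw [z] at this
    simp [om0] at this
  · rintro ⟨m, ⟨h1, -, h3⟩, hm⟩
    apply hm
    have a : ∀ z : L, ∃ c : ℂ, ∀ x, m z x = c • x := by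
      intro z
      obtain ⟨c, hc⟩ := hd0 (m z) (fun x y => by
        have := h3 x y z
        change (2 : ℂ) • m z (br x y) = br (m z x) y + br x (m z y) at this
        change m z (br x y) = (1 / 2 : ℂ) • (br (m z x) y + br x (m z y))
        rw [← this]
        change _ = (1 / 2 : ℂ) • ((2 : ℂ) • m z (br x y) : L)
        rw [smul_smul]; norm_num)
      exact ⟨c, fun x => LinearMap.congr_fun hc x⟩
    choose c hc using a
    have b : ∀ (i j : Fin 8) (z : L), i ≠ j → c z * 0 = c (Pi.single i 1 : Fin 8 → ℂ) * z j := by
      intro i j z hij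
      have := congrFun (((hc z _).symm.trans (h1 z (Pi.single i 1 : Fin 8 → ℂ))).trans (hc _ z)) j
      change c z * (Pi.single i 1 : Fin 8 → ℂ) j = c _ * z j at this
      rwa [Pi.single_eq_of_ne hij.symm] at this
    have c0 : c (Pi.single 0 1 : Fin 8 → ℂ) = 0 := by
      have := b 0 1 (Pi.single 1 1 : Fin 8 → ℂ) (by decide)
      simpa using this.symm
    have cz : ∀ z, c z = 0 := by
      intro z
      have := congrFun (((hc z _).symm.trans (h1 z (Pi.single 0 1 : Fin 8 → ℂ))).trans (hc _ z)) 0
      change c z * (Pi.single 0 1 : Fin 8 → ℂ) 0 = c _ * z 0 at this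
      simpa [c0] using this
    refine LinearMap.ext fun z => LinearMap.ext fun x => ?_
    rw [hc, cz]; simp
  · intro h
    have := congrArg Prod.snd (mu_ap (t, 0) (t, 0))
    rw [h] at this
    simp [ht] at this
  · intro x y
    rw [← mu_tp.2.2, smul_smul]; norm_num
  · rintro ⟨c, hc⟩
    have := LinearMap.congr_fun hc (t, 0)
    rw [mu_ap] at this
    simpa [ht] using congrArg Prod.snd this

end Pool.Agent.Results.MP_d69fce_al.Yes
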